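import Pool.Agent.Q77.LU.StmU
import Pool.Agent.Q177.LU.SQT

/-!
# Project LU (helper77): jobs TSH and ROT (traces of square roots)
-/

set_option autoImplicit false

namespace Pool.Agent.Q26.LU

open Matrix Finset
open Pool.Agent.Q77.LU (tsq S_TSH S_ROT)
open Pool.Agent.Q177.LU (tr_pow tr_pol tsq_eq)

variable {ι : Type} [Fintype ι] [DecidableEq ι]

/-- diagonalisation of a symmetric matrix -/
theorem spec {A : Matrix ι ι ℝ} (h : A.IsHermitian) : ∃ U : Matrix ι ι ℝ,
    U * Uᵀ = 1 ∧ Uᵀ * U = 1 ∧ A = U * diagonal h.eigenvalues * Uᵀ := by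
  refine ⟨(h.eigenvectorUnitary : Matrix ι ι ℝ), ?_, ?_, ?_⟩
  · have := Unitary.coe_mul_star_self h.eigenvectorUnitary
    exact this
  · have := Unitary.coe_star_mul_self h.eigenvectorUnitary
    exact this
  · have h1 := h.spectral_theorem
    rw [Unitary.conjStarAlgAut_apply] at h1
    exact h1

theorem sandwich (V : Matrix ι ι ℝ) (d : ι → ℝ) (i : ι) :
    (V * diagonal d * Vᵀ) i i = ∑ j, V i j ^ 2 * d j := by
  rw [Matrix.mul_apply]
  refine Finset.sum_congr rfl fun j _ => ?_
  rw [Matrix.mul_diagonal, Matrix.transpose_apply]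
  ring

/-- the trace of the square root is at most the sum of the square roots of the diagonal entries in any
orthonormal basis -/
theorem peierls {A : Matrix ι ι ℝ} (hA : A.PosSemidef) (V : Matrix ι ι ℝ)
    (h1 : V * Vᵀ = 1) (h2 : Vᵀ * V = 1) : tsq A ≤ ∑ i, Real.sqrt ((Vᵀ * A * V) i i) := by
  obtain ⟨U, hU1, hU2, hU⟩ := spec hA.1
  rw [tsq_eq hA.1]
  set lam := hA.1.eigenvalues with hlam
  set Z := Vᵀ * U with hZ
  have hZ1 : Z * Zᵀ = 1 := by
    rw [hZ, transpose_mul, transpose_transpose]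
    calc Vᵀ * U * (Uᵀ * V) = Vᵀ * (U * Uᵀ) * V := by simp only [Matrix.mul_assoc]
      _ = 1 := by rw [hU1, Matrix.mul_one, h2]
  have hZ2 : Zᵀ * Z = 1 := by
    rw [hZ, transpose_mul, transpose_transpose]
    calc Uᵀ * V * (Vᵀ * U) = Uᵀ * (V * Vᵀ) * U := by simp only [Matrix.mul_assoc]
      _ = 1 := by rw [h1, Matrix.mul_one, hU2]
  have hdiag : ∀ i, (Vᵀ * A * V) i i = ∑ j, Z i j ^ 2 * lam j := by
    intro i
    have e1 : Vᵀ * A * V = Z * diagonal lam * Zᵀ := by
      rw [hZ, transpose_mul, transpose_transpose]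
      conv_lhs => rw [hU]
      simp only [Matrix.mul_assoc]
    rw [e1, sandwich]
  have hrow : ∀ i, ∑ j, Z i j ^ 2 = 1 := by
    intro i
    have := congrFun (congrFun hZ1 i) i
    rw [Matrix.mul_apply, Matrix.one_apply_eq] at this
    rw [← this]
    refine Finset.sum_congr rfl fun j _ => ?_
    rw [Matrix.transpose_apply]
    ring
  have hcol : ∀ j, ∑ i, Z i j ^ 2 = 1 := by
    intro j
    have := congrFun (congrFun hZ2 j) j
    rw [Matrix.mul_apply, Matrix.one_apply_eq] at this
    rw [← this]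
    refine Finset.sum_congr rfl fun i _ => ?_
    rw [Matrix.transpose_apply]
    ring
  have hlam0 : ∀ j, 0 ≤ lam j := fun j => hA.eigenvalues_nonneg j
  have hj : ∀ i, ∑ j, Z i j ^ 2 * Real.sqrt (lam j) ≤ Real.sqrt ((Vᵀ * A * V) i i) := by
    intro i
    rw [hdiag i]
    have := Real.strictConcaveOn_sqrt.concaveOn.le_map_sum (t := Finset.univ)
      (w := fun j => Z i j ^ 2) (p := lam) (fun j _ => sq_nonneg _) (hrow i)
      (fun j _ => hlam0 j)
    simpa only [smul_eq_mul] using this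
  calc ∑ j, Real.sqrt (lam j) = ∑ j, (∑ i, Z i j ^ 2) * Real.sqrt (lam j) := by
        refine Finset.sum_congr rfl fun j _ => ?_
        rw [hcol j, one_mul]
    _ = ∑ i, ∑ j, Z i j ^ 2 * Real.sqrt (lam j) := by
        simp only [Finset.sum_mul]
        rw [Finset.sum_comm]
    _ ≤ _ := Finset.sum_le_sum fun i _ => hj i

theorem diag_of_spec {A : Matrix ι ι ℝ} {U : Matrix ι ι ℝ} {d : ι → ℝ} (hU2 : Uᵀ * U = 1)
    (hA : A = U * diagonal d * Uᵀ) : Uᵀ * A * U = diagonal d := by
  rw [hA]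
  calc Uᵀ * (U * diagonal d * Uᵀ) * U = (Uᵀ * U) * diagonal d * (Uᵀ * U) := by
        simp only [Matrix.mul_assoc]
    _ = diagonal d := by rw [hU2, Matrix.one_mul, Matrix.mul_one]

theorem sqrt_add_le' {x y : ℝ} (hx : 0 ≤ x) (hy : 0 ≤ y) :
    Real.sqrt (x + y) ≤ Real.sqrt x + Real.sqrt y := by
  rw [Real.sqrt_le_left (by positivity)]
  have e1 := Real.sq_sqrt hx
  have e2 := Real.sq_sqrt hy
  nlinarith [Real.sqrt_nonneg x, Real.sqrt_nonneg y, mul_nonneg (Real.sqrt_nonneg x)
    (Real.sqrt_nonneg y)]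

/-- comparison in the eigenbasis of `B` -/
theorem cmp {A B : Matrix ι ι ℝ} (hA : A.PosSemidef) (hB : B.PosSemidef) {s : ℝ} (hs : 0 ≤ s)
    (h : ∀ U : Matrix ι ι ℝ, U * Uᵀ = 1 → Uᵀ * U = 1 → ∀ i,
      (Uᵀ * A * U) i i ≤ (Uᵀ * B * U) i i + s) :
    tsq A ≤ tsq B + Fintype.card ι * Real.sqrt s := by
  obtain ⟨U, hU1, hU2, hU⟩ := spec hB.1
  refine (peierls hA U hU1 hU2).trans ?_
  rw [tsq_eq hB.1]
  have h1 : ∀ i, Real.sqrt ((Uᵀ * A * U) i i) ≤
      Real.sqrt (hB.1.eigenvalues i) + Real.sqrt s := by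
    intro i
    have h2 := h U hU1 hU2 i
    rw [diag_of_spec hU2 hU, diagonal_apply_eq] at h2
    exact (Real.sqrt_le_sqrt h2).trans (sqrt_add_le' (hB.eigenvalues_nonneg i) hs)
  refine (Finset.sum_le_sum fun i _ => h1 i).trans (le_of_eq ?_)
  rw [Finset.sum_add_distrib, Finset.sum_const, Finset.card_univ, nsmul_eq_mul]

theorem t_TSH : S_TSH := by
  intro ι _ _ A B η hA hB hη hAB
  refine cmp hA hB (by positivity) fun U hU1 hU2 i => ?_
  have h1 : (Uᵀ * A * U) i i - (Uᵀ * B * U) i i = ∑ k, ∑ l, U k i * (A k l - B k l) * U l i := by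
    have e1 : ∀ M : Matrix ι ι ℝ, (Uᵀ * M * U) i i = ∑ k, ∑ l, U k i * M k l * U l i := by
      intro M
      rw [Matrix.mul_apply]
      simp only [Matrix.mul_apply, Finset.sum_mul, Matrix.transpose_apply]
      rw [Finset.sum_comm]
    rw [e1, e1, ← Finset.sum_sub_distrib]
    refine Finset.sum_congr rfl fun k _ => ?_
    rw [← Finset.sum_sub_distrib]
    refine Finset.sum_congr rfl fun l _ => ?_
    ring
  have h2 : ∑ k, ∑ l, U k i * (A k l - B k l) * U l i ≤ ∑ k, ∑ l, η * (|U k i| * |U l i|) := by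
    refine Finset.sum_le_sum fun k _ => Finset.sum_le_sum fun l _ => ?_
    refine (le_abs_self _).trans ?_
    rw [abs_mul, abs_mul]
    calc |U k i| * |A k l - B k l| * |U l i| ≤ |U k i| * η * |U l i| :=
          mul_le_mul_of_nonneg_right (mul_le_mul_of_nonneg_left (hAB k l) (abs_nonneg _))
            (abs_nonneg _)
      _ = η * (|U k i| * |U l i|) := by ring
  have h3 : ∑ k, ∑ l, η * (|U k i| * |U l i|) = η * (∑ k, |U k i|) ^ 2 := by
    simp only [← Finset.mul_sum]
    rw [sq, Finset.sum_mul]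
  have h4 : (∑ k, |U k i|) ^ 2 ≤ Fintype.card ι * ∑ k, |U k i| ^ 2 := by
    have := sq_sum_le_card_mul_sum_sq (s := (Finset.univ : Finset ι)) (f := fun k => |U k i|)
    simpa using this
  have h5 : ∑ k, |U k i| ^ 2 = 1 := by
    have := congrFun (congrFun hU2 i) i
    rw [Matrix.mul_apply, Matrix.one_apply_eq] at this
    rw [← this]
    refine Finset.sum_congr rfl fun j _ => ?_
    rw [Matrix.transpose_apply, sq_abs]
    ring
  rw [h5, mul_one] at h4
  have h6 : η * (∑ k, |U k i|) ^ 2 ≤ η * Fintype.card ι := mul_le_mul_of_nonneg_left h4 hη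
  linarith

/-- the positive semidefinite square root -/
theorem exists_sqrt {A : Matrix ι ι ℝ} (hA : A.PosSemidef) : ∃ P : Matrix ι ι ℝ,
    P.PosSemidef ∧ Pᵀ = P ∧ P * P = A ∧ trace P = tsq A := by
  obtain ⟨U, hU1, hU2, hU⟩ := spec hA.1
  set d : ι → ℝ := fun i => Real.sqrt (hA.1.eigenvalues i) with hd
  have hT : (U * diagonal d * Uᵀ)ᵀ = U * diagonal d * Uᵀ := by
    rw [transpose_mul, transpose_mul, transpose_transpose, diagonal_transpose, Matrix.mul_assoc]
  refine ⟨U * diagonal d * Uᵀ, ?_, hT, ?_, ?_⟩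
  · have h1 : (diagonal d).PosSemidef := PosSemidef.diagonal (fun i => Real.sqrt_nonneg _)
    have h2 := h1.mul_mul_conjTranspose_same U
    exact h2
  · calc U * diagonal d * Uᵀ * (U * diagonal d * Uᵀ) =
        U * diagonal d * (Uᵀ * U) * diagonal d * Uᵀ := by simp only [Matrix.mul_assoc]
      _ = U * (diagonal d * diagonal d) * Uᵀ := by
          rw [hU2, Matrix.mul_one]; simp only [Matrix.mul_assoc]
      _ = A := by
          rw [diagonal_mul_diagonal]
          conv_rhs => rw [hU]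
          congr 3
          funext i
          exact Real.mul_self_sqrt (hA.eigenvalues_nonneg i)
  · rw [tsq_eq hA.1, trace_mul_comm, ← Matrix.mul_assoc, hU2, Matrix.one_mul, trace_diagonal]

/-- the inverse square root -/
theorem exists_isqrt {C : Matrix ι ι ℝ} (hC : C.PosDef) : ∃ R : Matrix ι ι ℝ,
    Rᵀ = R ∧ R * C * R = 1 ∧ trace (R * C) = tsq C := by
  obtain ⟨U, hU1, hU2, hU⟩ := spec hC.1
  set lam := hC.1.eigenvalues with hlam
  have hpos : ∀ i, 0 < lam i := fun i => hC.eigenvalues_pos i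
  set d : ι → ℝ := fun i => (Real.sqrt (lam i))⁻¹ with hd
  have hRC : U * diagonal d * Uᵀ * C = U * diagonal (fun i => Real.sqrt (lam i)) * Uᵀ := by
    calc U * diagonal d * Uᵀ * C = U * diagonal d * Uᵀ * (U * diagonal lam * Uᵀ) := by
          conv_lhs => rw [hU]
      _ = U * diagonal d * (Uᵀ * U) * diagonal lam * Uᵀ := by simp only [Matrix.mul_assoc]
      _ = U * (diagonal d * diagonal lam) * Uᵀ := by
          rw [hU2, Matrix.mul_one]; simp only [Matrix.mul_assoc]
      _ = _ := by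
          rw [diagonal_mul_diagonal]
          congr 3
          funext i
          have h1 : Real.sqrt (lam i) ≠ 0 := (Real.sqrt_pos.2 (hpos i)).ne'
          have h2 := Real.mul_self_sqrt (hpos i).le
          simp only [hd]
          rw [inv_mul_eq_div, div_eq_iff h1]
          exact h2.symm
  refine ⟨U * diagonal d * Uᵀ, ?_, ?_, ?_⟩
  · rw [transpose_mul, transpose_mul, transpose_transpose, diagonal_transpose, Matrix.mul_assoc]
  · rw [hRC]
    calc U * diagonal (fun i => Real.sqrt (lam i)) * Uᵀ * (U * diagonal d * Uᵀ) =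
        U * diagonal (fun i => Real.sqrt (lam i)) * (Uᵀ * U) * diagonal d * Uᵀ := by
          simp only [Matrix.mul_assoc]
      _ = U * (diagonal (fun i => Real.sqrt (lam i)) * diagonal d) * Uᵀ := by
          rw [hU2, Matrix.mul_one]; simp only [Matrix.mul_assoc]
      _ = 1 := by
          have h3 : diagonal (fun i => Real.sqrt (lam i)) * diagonal d =
              (1 : Matrix ι ι ℝ) := by
            rw [diagonal_mul_diagonal, ← diagonal_one]
            congr 1
            funext i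
            exact mul_inv_cancel₀ (Real.sqrt_pos.2 (hpos i)).ne'
          rw [h3, Matrix.mul_one, hU1]
  · rw [hRC, tsq_eq hC.1, trace_mul_comm, ← Matrix.mul_assoc, hU2, Matrix.one_mul,
      trace_diagonal]

omit [DecidableEq ι] in
theorem trace_conj_nonneg {P : Matrix ι ι ℝ} (hP : P.PosSemidef) (K : Matrix ι ι ℝ) :
    0 ≤ trace (Kᵀ * P * K) := (hP.conjTranspose_mul_mul_same K).trace_nonneg

/-- one half of the subadditivity -/
theorem half {A B R P Q : Matrix ι ι ℝ} (hR : Rᵀ = R) (hRC : R * (A + B) * R = 1)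
    (hP : P.PosSemidef) (hPt : Pᵀ = P) (hPA : P * P = A) (hQt : Qᵀ = Q) (hQB : Q * Q = B) :
    trace (R * A) ≤ trace P := by
  have h1 : 0 ≤ trace ((1 - P * R)ᵀᵀ * P * (1 - P * R)ᵀ) := trace_conj_nonneg hP _
  have h2 : 0 ≤ trace ((R * Q)ᵀ * P * (R * Q)) := trace_conj_nonneg hP _
  rw [transpose_transpose, transpose_sub, transpose_one, transpose_mul, hR, hPt] at h1
  rw [transpose_mul, hR, hQt] at h2
  have e1 : (1 - P * R) * P * (1 - R * P) = P - P * (R * P) - P * R * P + P * R * P * (R * P) := by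
    rw [Matrix.sub_mul, Matrix.mul_sub, Matrix.one_mul, Matrix.mul_one, Matrix.sub_mul]
    abel
  have e2 : trace (P * (R * P)) = trace (R * A) := by
    rw [trace_mul_comm, Matrix.mul_assoc, hPA]
  have e3 : trace (P * R * P) = trace (R * A) := by
    rw [Matrix.mul_assoc, e2]
  have e4 : trace (P * R * P * (R * P)) = trace (P * (R * A * R)) := by
    calc trace (P * R * P * (R * P)) = trace ((P * R * P * R) * P) := by
          simp only [Matrix.mul_assoc]
      _ = trace (P * (P * R * P * R)) := trace_mul_comm _ _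
      _ = trace (A * (R * P * R)) := by
          rw [← hPA]; simp only [Matrix.mul_assoc]
      _ = trace (R * P * R * A) := trace_mul_comm _ _
      _ = trace ((R * P) * (R * A)) := by simp only [Matrix.mul_assoc]
      _ = trace ((R * A) * (R * P)) := trace_mul_comm _ _
      _ = trace ((R * A * R) * P) := by simp only [Matrix.mul_assoc]
      _ = trace (P * (R * A * R)) := trace_mul_comm _ _
  have e5 : trace (Q * R * P * (R * Q)) = trace (P * (R * B * R)) := by
    calc trace (Q * R * P * (R * Q)) = trace ((Q * R * P * R) * Q) := by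
          simp only [Matrix.mul_assoc]
      _ = trace (Q * (Q * R * P * R)) := trace_mul_comm _ _
      _ = trace ((B * R) * (P * R)) := by
          rw [← hQB]; simp only [Matrix.mul_assoc]
      _ = trace ((P * R) * (B * R)) := trace_mul_comm _ _
      _ = trace (P * (R * B * R)) := by simp only [Matrix.mul_assoc]
  have e6 : trace (P * (R * A * R)) + trace (P * (R * B * R)) = trace P := by
    rw [← trace_add, ← Matrix.mul_add]
    have : R * A * R + R * B * R = 1 := by
      rw [← hRC, Matrix.mul_add, Matrix.add_mul]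
    rw [this, Matrix.mul_one]
  rw [e1, trace_add, trace_sub, trace_sub, e2, e3, e4] at h1
  rw [e5] at h2
  linarith

theorem sub_posdef {A B : Matrix ι ι ℝ} (hA : A.PosSemidef) (hB : B.PosSemidef)
    (hC : (A + B).PosDef) : tsq (A + B) ≤ tsq A + tsq B := by
  obtain ⟨R, hR, hRC, htr⟩ := exists_isqrt hC
  obtain ⟨P, hP, hPt, hPA, hPtr⟩ := exists_sqrt hA
  obtain ⟨Q, hQ, hQt, hQB, hQtr⟩ := exists_sqrt hB
  have h1 := half hR hRC hP hPt hPA hQt hQB
  have hRC' : R * (B + A) * R = 1 := by rw [add_comm B A]; exact hRC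
  have h2 := half hR hRC' hQ hQt hQB hPt hPA
  rw [← htr, Matrix.mul_add, trace_add, ← hPtr, ← hQtr]
  exact add_le_add h1 h2

theorem sub_add {A B : Matrix ι ι ℝ} (hA : A.PosSemidef) (hB : B.PosSemidef) :
    tsq (A + B) ≤ tsq A + tsq B := by
  have key : ∀ e : ℝ, 0 < e → tsq (A + B) ≤ tsq A + tsq B + Fintype.card ι * Real.sqrt e := by
    intro e he
    have hE : (e • (1 : Matrix ι ι ℝ)).PosDef := PosDef.one.smul he
    have hE' := hE.posSemidef
    have hA' : (A + e • (1 : Matrix ι ι ℝ)).PosSemidef := hA.add hE'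
    have hC' : (A + e • (1 : Matrix ι ι ℝ) + B).PosDef := by
      have : (e • (1 : Matrix ι ι ℝ) + (A + B)).PosDef := hE.add_posSemidef (hA.add hB)
      have e1 : A + e • (1 : Matrix ι ι ℝ) + B = e • (1 : Matrix ι ι ℝ) + (A + B) := by abel
      rw [e1]
      exact this
    have hconj : ∀ (U M : Matrix ι ι ℝ), Uᵀ * U = 1 → ∀ i,
        (Uᵀ * (M + e • (1 : Matrix ι ι ℝ)) * U) i i = (Uᵀ * M * U) i i + e := by
      intro U M hU i
      rw [Matrix.mul_add, Matrix.add_mul, Matrix.add_apply, Matrix.mul_smul, Matrix.smul_mul,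
        Matrix.mul_one, hU, Matrix.smul_apply, Matrix.one_apply_eq, smul_eq_mul, mul_one]
    have h1 : tsq (A + B) ≤ tsq (A + e • (1 : Matrix ι ι ℝ) + B) + Fintype.card ι * Real.sqrt 0 := by
      refine cmp (hA.add hB) hC'.posSemidef le_rfl fun U hU1 hU2 i => ?_
      have e1 : A + e • (1 : Matrix ι ι ℝ) + B = (A + B) + e • (1 : Matrix ι ι ℝ) := by abel
      rw [e1, hconj U (A + B) hU2 i]
      linarith
    have h2 := sub_posdef hA' hB hC'
    have h3 : tsq (A + e • (1 : Matrix ι ι ℝ)) ≤ tsq A + Fintype.card ι * Real.sqrt e := by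
      refine cmp hA' hA he.le fun U hU1 hU2 i => ?_
      rw [hconj U A hU2 i]
    rw [Real.sqrt_zero, mul_zero, add_zero] at h1
    linarith
  refine le_of_forall_pos_le_add fun ε hε => ?_
  have hm : (0 : ℝ) ≤ Fintype.card ι := Nat.cast_nonneg _
  have h1 := key ((ε / (Fintype.card ι + 1)) ^ 2) (by positivity)
  rw [Real.sqrt_sq (by positivity)] at h1
  have h2 : (Fintype.card ι : ℝ) * (ε / (Fintype.card ι + 1)) ≤ ε := by
    rw [mul_div_assoc', div_le_iff₀ (by positivity)]
    nlinarith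
  linarith

theorem rot2 {κ : Type} [Fintype κ] [DecidableEq κ] (A : Matrix ι κ ℝ) :
    tsq (A * Aᵀ) = tsq (Aᵀ * A) := by
  classical
  have hA : (A * Aᵀ).PosSemidef := Matrix.posSemidef_self_mul_conjTranspose A
  have hB : (Aᵀ * A).PosSemidef := Matrix.posSemidef_conjTranspose_mul_self A
  have hmul : ∀ k : ℕ, (A * Aᵀ) ^ k * A = A * (Aᵀ * A) ^ k := by
    intro k
    induction k with
    | zero => simp
    | succ k ih =>
      rw [pow_succ', Matrix.mul_assoc, ih, pow_succ']
      simp only [Matrix.mul_assoc]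
  have hpow : ∀ k : ℕ, trace ((A * Aᵀ) ^ (k + 1)) = trace ((Aᵀ * A) ^ (k + 1)) := by
    intro k
    calc trace ((A * Aᵀ) ^ (k + 1)) = trace ((A * Aᵀ) ^ k * A * Aᵀ) := by
          rw [pow_succ, Matrix.mul_assoc]
      _ = trace (A * (Aᵀ * A) ^ k * Aᵀ) := by rw [hmul]
      _ = trace (Aᵀ * (A * (Aᵀ * A) ^ k)) := trace_mul_comm _ _
      _ = trace ((Aᵀ * A) ^ (k + 1)) := by rw [pow_succ', Matrix.mul_assoc]
  rw [tsq_eq hA.1, tsq_eq hB.1]
  have hpol : ∀ p : Polynomial ℝ, p.coeff 0 = 0 →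
      ∑ i, p.eval (hA.1.eigenvalues i) = ∑ i, p.eval (hB.1.eigenvalues i) := by
    intro p hp
    simp_rw [Polynomial.eval_eq_sum_range]
    rw [Finset.sum_comm, Finset.sum_comm (s := (univ : Finset κ))]
    refine Finset.sum_congr rfl fun j _ => ?_
    rw [← Finset.mul_sum, ← Finset.mul_sum]
    cases j with
    | zero => rw [hp, zero_mul, zero_mul]
    | succ j => rw [← tr_pow hA.1, ← tr_pow hB.1, hpow]
  let s : Finset ℝ := insert 0 ((univ.image hA.1.eigenvalues) ∪ (univ.image hB.1.eigenvalues))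
  let p : Polynomial ℝ := Lagrange.interpolate s id Real.sqrt
  have hp : ∀ x ∈ s, p.eval x = Real.sqrt x := fun x hx =>
    Lagrange.eval_interpolate_at_node (v := id) Real.sqrt (Function.injective_id.injOn) hx
  have h0 : p.coeff 0 = 0 := by
    rw [Polynomial.coeff_zero_eq_eval_zero, hp 0 (Finset.mem_insert_self _ _), Real.sqrt_zero]
  calc ∑ i, Real.sqrt (hA.1.eigenvalues i) = ∑ i, p.eval (hA.1.eigenvalues i) :=
        Finset.sum_congr rfl fun i _ => (hp _ (Finset.mem_insert_of_mem (Finset.mem_union_left _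
          (Finset.mem_image_of_mem _ (Finset.mem_univ _))))).symm
    _ = ∑ i, p.eval (hB.1.eigenvalues i) := hpol p h0
    _ = ∑ i, Real.sqrt (hB.1.eigenvalues i) :=
        Finset.sum_congr rfl fun i _ => (hp _ (Finset.mem_insert_of_mem (Finset.mem_union_right _
          (Finset.mem_image_of_mem _ (Finset.mem_univ _)))))

theorem t_ROT : S_ROT :=
  ⟨fun _ _ _ _ _ hA hB => sub_add hA hB, fun _ _ _ _ _ _ A => rot2 A⟩

end Pool.Agent.Q26.LU
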